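import Pool.Agent.Y667.MT.Stm
import Pool.Agent.Y448.RZ.Half

/-!
# Project MT: RAI (density of the raising primes)
-/

set_option autoImplicit false

namespace Pool.Agent.Y350.MT

open Finset Pool.Agent.W262.RK Pool.Agent.W307.RT Pool.Agent.W307.RS Pool.Agent.W307.SE
  Pool.Agent.W307.FK Pool.Agent.W214.RK2 Pool.Agent.Y667.RP Pool.Agent.Y667.RZ
  Pool.Agent.Y667.MT Pool.Agent.Y448.RZ

open NumberTheorySymbols

/-- orthogonality -/
lemma orth {γ : Type*} [DecidableEq γ] (G : Finset γ) (op : γ → γ → γ) (χ : γ → ℤ)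
    (hop : ∀ x ∈ G, ∀ y ∈ G, op x y ∈ G) (hinj : ∀ x ∈ G, Set.InjOn (op x) (G : Set γ))
    (hχ : ∀ x ∈ G, ∀ y ∈ G, χ (op x y) = χ x * χ y) (h1 : ∀ x ∈ G, χ x = 1 ∨ χ x = -1) :
    ((∀ x ∈ G, χ x = 1) ∧ ∑ x ∈ G, χ x = G.card) ∨
      ((∃ x ∈ G, χ x = -1) ∧ ∑ x ∈ G, χ x = 0) := by
  by_cases h : ∀ x ∈ G, χ x = 1
  · left
    refine ⟨h, ?_⟩
    rw [sum_congr rfl h, sum_const, nsmul_eq_mul, mul_one]
  · right
    push Not at h
    obtain ⟨x, hx, hx1⟩ := h
    have hx2 : χ x = -1 := (h1 x hx).resolve_left hx1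
    refine ⟨⟨x, hx, hx2⟩, ?_⟩
    have himg : G.image (op x) = G := by
      apply eq_of_subset_of_card_le
      · intro z hz
        rw [mem_image] at hz
        obtain ⟨y, hy, rfl⟩ := hz
        exact hop x hx y hy
      · rw [card_image_of_injOn (hinj x hx)]
    have h3 : ∑ y ∈ G, χ y = ∑ y ∈ G, χ (op x y) := by
      conv_lhs => rw [← himg]
      exact sum_image (hinj x hx)
    have h4 : ∑ y ∈ G, χ (op x y) = - ∑ y ∈ G, χ y := by
      rw [← sum_neg_distrib]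
      refine sum_congr rfl fun y hy => ?_
      rw [hχ x hx y hy, hx2]
      ring
    omega

/-- the symbol of a product modulo squares -/
lemma jac_sp {a x y : ℤ} (hx : Squarefree x) (hy : Squarefree y) (h : Int.gcd a x = 1) :
    J(a | (sp x y).natAbs) = J(a | x.natAbs) * J(a | y.natAbs) := by
  have hs := sp_sqf hx hy
  obtain ⟨g, x', y', hg, h1, h2, h3, h4⟩ := sp_dec x y hx
  have hg0 : g.natAbs ≠ 0 := by omega
  have hx0 : x'.natAbs ≠ 0 := by
    intro h0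
    rw [Int.natAbs_eq_zero] at h0
    exact hx.ne_zero (by rw [h1, h0, mul_zero])
  have hy0 : y'.natAbs ≠ 0 := by
    intro h0
    rw [Int.natAbs_eq_zero] at h0
    exact hy.ne_zero (by rw [h2, h0, mul_zero])
  rw [h4, Int.natAbs_mul]
  conv_rhs => rw [h1, h2, Int.natAbs_mul, Int.natAbs_mul]
  rw [jacobiSym.mul_right' _ hx0 hy0, jacobiSym.mul_right' _ hg0 hx0,
    jacobiSym.mul_right' _ hg0 hy0]
  have h5 : Int.gcd a (g.natAbs : ℤ) = 1 := by
    have h6 : (g.natAbs : ℤ) = g := by omega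
    rw [h6]
    apply Nat.eq_one_of_dvd_one
    rw [← h]
    exact Int.gcd_dvd_gcd_of_dvd_right a (by rw [h1]; exact dvd_mul_right _ _)
  have h7 := jacobiSym.sq_one h5
  linear_combination (-(J(a | x'.natAbs) * J(a | y'.natAbs))) * h7

/-- the symbol of a product modulo `M` -/
lemma jac_mod {M d a b : ℕ} (h : d ∣ M) :
    J(((a * b % M : ℕ) : ℤ) | d) = J((a : ℤ) | d) * J((b : ℤ) | d) := by
  rw [← jacobiSym.mul_left, jacobiSym.mod_left, jacobiSym.mod_left ((a : ℤ) * b)]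
  congr 1
  push_cast
  exact Int.emod_emod_of_dvd _ (by exact_mod_cast h)

lemma coprime_mod {M a b : ℕ} (ha : a.Coprime M) (hb : b.Coprime M) :
    (a * b % M).Coprime M := by
  have h := Nat.Coprime.mul_left ha hb
  show Nat.gcd (a * b % M) M = 1
  rw [← Nat.gcd_rec, Nat.gcd_comm]
  exact h

lemma mul_inj_mod {M t u v : ℕ} (ht : t.Coprime M) (hu : u < M) (hv : v < M)
    (h : t * u % M = t * v % M) : u = v := by
  have h1 : t * u ≡ t * v [MOD M] := h
  have h2 := Nat.ModEq.cancel_left_of_coprime (by rw [Nat.gcd_comm]; exact ht) h1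
  unfold Nat.ModEq at h2
  rwa [Nat.mod_eq_of_lt hu, Nat.mod_eq_of_lt hv] at h2

open Classical in
/-- the classes on which all the symbols are trivial -/
noncomputable def Ker (M : ℕ) (A B : Set (ℤ × ℤ)) : Finset ℕ :=
  (range M).filter (fun a => a.Coprime M ∧ (∀ w ∈ A, J((a : ℤ) | w.1.natAbs) = 1) ∧
    ∀ w ∈ B, J((a : ℤ) | w.1.natAbs) = 1)

open Classical in
lemma mem_Ker {M a : ℕ} {A B : Set (ℤ × ℤ)} : a ∈ Ker M A B ↔ a < M ∧ a.Coprime M ∧
    (∀ w ∈ A, J((a : ℤ) | w.1.natAbs) = 1) ∧ ∀ w ∈ B, J((a : ℤ) | w.1.natAbs) = 1 := by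
  unfold Ker
  rw [mem_filter, mem_range]

/-- the group data -/
structure Gp (M : ℕ) (G : Set (ℤ × ℤ)) : Prop where
  sq1 : ∀ w ∈ G, Squarefree w.1
  sq2 : ∀ w ∈ G, Squarefree w.2
  dv : ∀ w ∈ G, w.1.natAbs ∣ M
  one : ((1, 1) : ℤ × ℤ) ∈ G
  mul : ∀ w ∈ G, ∀ w' ∈ G, sp2 w w' ∈ G

lemma gcd_of {M a : ℕ} {x : ℤ} (ha : a.Coprime M) (hx : x.natAbs ∣ M) :
    Int.gcd (a : ℤ) x = 1 := by
  rw [Int.gcd_eq_natAbs_gcd_natAbs, Int.natAbs_natCast]
  exact Nat.Coprime.coprime_dvd_right hx ha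

lemma jac_pm {M a : ℕ} {x : ℤ} (ha : a.Coprime M) (hx : x.natAbs ∣ M) :
    J((a : ℤ) | x.natAbs) = 1 ∨ J((a : ℤ) | x.natAbs) = -1 := by
  apply jacobiSym.eq_one_or_neg_one
  rw [Int.gcd_natCast_natCast]
  exact Nat.Coprime.coprime_dvd_right hx ha

lemma gp_sum {M : ℕ} {G : Set (ℤ × ℤ)} (hG : Gp M G) (hf : G.Finite) {a : ℕ}
    (ha : a.Coprime M) :
    ((∀ w ∈ G, J((a : ℤ) | w.1.natAbs) = 1) ∧
      ∑ w ∈ hf.toFinset, J((a : ℤ) | w.1.natAbs) = G.ncard) ∨
    ((∃ w ∈ G, J((a : ℤ) | w.1.natAbs) = -1) ∧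
      ∑ w ∈ hf.toFinset, J((a : ℤ) | w.1.natAbs) = 0) := by
  classical
  have h := orth hf.toFinset sp2 (fun w => J((a : ℤ) | w.1.natAbs)) (by
      intro x hx y hy
      rw [Set.Finite.mem_toFinset] at hx hy ⊢
      exact hG.mul x hx y hy) (by
      intro x hx y hy z hz h
      rw [Set.Finite.mem_toFinset] at hx
      rw [Set.Finite.coe_toFinset] at hy hz
      unfold sp2 at h
      rw [Prod.mk.injEq] at h
      exact Prod.ext (sp_inj (hG.sq1 x hx) (hG.sq1 y hy) (hG.sq1 z hz) h.1)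
        (sp_inj (hG.sq2 x hx) (hG.sq2 y hy) (hG.sq2 z hz) h.2)) (by
      intro x hx y hy
      rw [Set.Finite.mem_toFinset] at hx hy
      exact jac_sp (hG.sq1 x hx) (hG.sq1 y hy) (gcd_of ha (hG.dv x hx))) (by
      intro x hx
      rw [Set.Finite.mem_toFinset] at hx
      exact jac_pm ha (hG.dv x hx))
  rw [← Set.ncard_eq_toFinset_card G hf] at h
  simpa only [Set.Finite.mem_toFinset] using h

lemma kernel_card {M : ℕ} (hM : 0 < M) {A B : Set (ℤ × ℤ)} (hA : Gp M A) (hB : Gp M B)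
    (fA : A.Finite) (fB : B.Finite) :
    M.totient ≤ A.ncard * B.ncard * (Ker M A B).card := by
  classical
  set R := (range M).filter (fun a => a.Coprime M) with hR
  have hRcard : R.card = M.totient := by
    rw [Nat.totient_eq_card_coprime, hR]
    congr 1
    ext a
    simp only [mem_filter, Nat.coprime_comm]
  have hKR : Ker M A B ⊆ R := by
    intro a ha
    rw [mem_Ker] at ha
    rw [hR, mem_filter, mem_range]
    exact ⟨ha.1, ha.2.1⟩
  set S : ℤ := ∑ a ∈ R, (∑ w ∈ fA.toFinset, J((a : ℤ) | w.1.natAbs)) *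
    ∑ w ∈ fB.toFinset, J((a : ℤ) | w.1.natAbs) with hS
  have hup : S = A.ncard * B.ncard * (Ker M A B).card := by
    rw [hS, ← sum_sdiff hKR]
    have e1 : ∑ a ∈ R \ Ker M A B, (∑ w ∈ fA.toFinset, J((a : ℤ) | w.1.natAbs)) *
        ∑ w ∈ fB.toFinset, J((a : ℤ) | w.1.natAbs) = 0 := by
      refine sum_eq_zero fun a ha => ?_
      rw [mem_sdiff, hR, mem_filter, mem_range, mem_Ker] at ha
      obtain ⟨⟨h1, h2⟩, h3⟩ := ha
      rcases gp_sum hA fA h2 with ⟨h4, _⟩ | ⟨_, h4⟩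
      · rcases gp_sum hB fB h2 with ⟨h5, _⟩ | ⟨_, h5⟩
        · exact absurd ⟨h1, h2, h4, h5⟩ h3
        · rw [h5, mul_zero]
      · rw [h4, zero_mul]
    have e2 : ∑ a ∈ Ker M A B, (∑ w ∈ fA.toFinset, J((a : ℤ) | w.1.natAbs)) *
        ∑ w ∈ fB.toFinset, J((a : ℤ) | w.1.natAbs) =
        ∑ a ∈ Ker M A B, (A.ncard * B.ncard : ℤ) := by
      refine sum_congr rfl fun a ha => ?_
      rw [mem_Ker] at ha
      obtain ⟨h1, h2, h3, h4⟩ := ha
      congr 1
      · rcases gp_sum hA fA h2 with ⟨_, h5⟩ | ⟨⟨w, hw, h5⟩, _⟩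
        · exact h5
        · rw [h3 w hw] at h5
          exact absurd h5 (by norm_num)
      · rcases gp_sum hB fB h2 with ⟨_, h5⟩ | ⟨⟨w, hw, h5⟩, _⟩
        · exact h5
        · rw [h4 w hw] at h5
          exact absurd h5 (by norm_num)
    rw [e1, e2, zero_add, sum_const, nsmul_eq_mul]
    ring
  have hlow : (M.totient : ℤ) ≤ S := by
    have e1 : S = ∑ q ∈ fA.toFinset ×ˢ fB.toFinset,
        ∑ a ∈ R, J((a : ℤ) | q.1.1.natAbs) * J((a : ℤ) | q.2.1.natAbs) := by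
      rw [hS, sum_comm]
      refine sum_congr rfl fun a _ => ?_
      rw [sum_mul_sum, sum_product]
    rw [e1]
    have hnn : ∀ q ∈ fA.toFinset ×ˢ fB.toFinset,
        0 ≤ ∑ a ∈ R, J((a : ℤ) | q.1.1.natAbs) * J((a : ℤ) | q.2.1.natAbs) := by
      intro q hq
      rw [mem_product, Set.Finite.mem_toFinset, Set.Finite.mem_toFinset] at hq
      have d1 := hA.dv _ hq.1
      have d2 := hB.dv _ hq.2
      have h := orth R (fun a b => a * b % M)
        (fun a => J((a : ℤ) | q.1.1.natAbs) * J((a : ℤ) | q.2.1.natAbs)) (by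
          intro x hx y hy
          rw [hR, mem_filter, mem_range] at hx hy ⊢
          exact ⟨Nat.mod_lt _ hM, coprime_mod hx.2 hy.2⟩) (by
          intro x hx y hy z hz h
          rw [mem_coe, hR, mem_filter, mem_range] at hy hz
          rw [hR, mem_filter] at hx
          exact mul_inj_mod hx.2 hy.1 hz.1 h) (by
          intro x _ y _
          rw [jac_mod d1, jac_mod d2]
          ring) (by
          intro x hx
          rw [hR, mem_filter] at hx
          rcases jac_pm hx.2 d1 with h1 | h1 <;> rcases jac_pm hx.2 d2 with h2 | h2 <;>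
            rw [h1, h2] <;> norm_num)
      rcases h with ⟨_, h⟩ | ⟨_, h⟩
      · rw [h]; exact Int.natCast_nonneg _
      · rw [h]
    have h1 := single_le_sum hnn (a := (((1, 1), (1, 1)) : (ℤ × ℤ) × (ℤ × ℤ))) (by
      rw [mem_product, Set.Finite.mem_toFinset, Set.Finite.mem_toFinset]
      exact ⟨hA.one, hB.one⟩)
    refine le_trans (le_of_eq ?_) h1
    simp only [Int.natAbs_one, jacobiSym.one_right, mul_one, sum_const, nsmul_eq_mul]
    rw [hRcard]
  rw [hup] at hlow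
  exact_mod_cast hlow

/-- a subset without solutions of `c = a b` of the kernel has at most half of the classes -/
lemma half_card' {M : ℕ} (N T : Finset ℕ) (hT : T ⊆ N)
    (hN : ∀ a ∈ N, a < M ∧ a.Coprime M) (hmul : ∀ a ∈ N, ∀ b ∈ N, a * b % M ∈ N)
    (hno : ∀ a ∈ T, ∀ b ∈ T, a * b % M ∉ T) : 2 * T.card ≤ N.card := by
  classical
  rcases T.eq_empty_or_nonempty with h | ⟨t, ht⟩
  · rw [h]; simp
  · have ht' := hN t (hT ht)
    have hcard : T.card ≤ (N \ T).card := by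
      apply card_le_card_of_injOn (fun u => t * u % M)
      · intro u hu
        rw [mem_coe, mem_sdiff]
        exact ⟨hmul t (hT ht) u (hT hu), hno t ht u hu⟩
      · intro u hu v hv huv
        exact mul_inj_mod ht'.2 (hN u (hT hu)).1 (hN v (hT hv)).1 huv
    rw [card_sdiff_of_subset hT] at hcard
    have := card_le_card hT
    omega

lemma gp_VG {M m : ℕ} {L : Y448.RZ.LC} (hX : ∀ q ∈ m.primeFactors, XC (L q)) (hm : m ∣ M) :
    Gp M (VG m L) :=
  ⟨fun _ hw => hw.1, fun _ hw => hw.2.1,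
    fun _ hw => (natAbs_dvd hw.1 hw.2.2.2.2.1).trans hm, VG_one hX,
    fun _ hw _ hw' => VG_mul hX hw hw'⟩

/-- a prime in the kernel kills no class -/
lemma sgn_of_ker {M q : ℕ} {x : ℤ} (hx : Squarefree x) (h0 : 0 < x) (h8 : x % 8 = 1)
    (hs : ∀ r : ℕ, r.Prime → (r : ℤ) ∣ x → r ∣ M) (hq : q.Prime) (hqM : q.Coprime M)
    (hM2 : 2 ∣ M) (hJ : J(((q % M : ℕ) : ℤ) | x.natAbs) = 1) : sgn q x = false := by
  have hdvd : x.natAbs ∣ M := natAbs_dvd hx hs
  have hqx : ¬ (q : ℤ) ∣ x := by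
    intro h
    have h1 : q ∣ M := hs q hq h
    have h2 := Nat.dvd_gcd (dvd_refl q) h1
    rw [hqM] at h2
    exact hq.one_lt.ne' (Nat.dvd_one.1 h2)
  have hodd : Odd q := by
    apply hq.odd_of_ne_two
    rintro rfl
    have h2 := Nat.dvd_gcd (dvd_refl 2) hM2
    rw [hqM] at h2
    exact absurd h2 (by decide)
  lift x to ℕ using h0.le
  rw [Int.natAbs_natCast] at hdvd hJ
  have hx4 : x % 4 = 1 := by omega
  have h1 : sg (sgn q (x : ℤ)) = J(q | x) := by
    rw [sgn_ndvd hq hqx, sg_sg0 hq hqx, jacobiSym.quadratic_reciprocity_one_mod_four hx4 hodd]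
  have h2 : J(((q % M : ℕ) : ℤ) | x) = J((q : ℤ) | x) := by
    rw [jacobiSym.mod_left, jacobiSym.mod_left (q : ℤ)]
    congr 1
    push_cast
    exact Int.emod_emod_of_dvd _ (by exact_mod_cast hdvd)
  rw [h2] at hJ
  rw [hJ] at h1
  exact sg_one h1

theorem RAI' (hTYPE : St_TYPE2) (hEXI : St_EXI) : St_RAI := by
  classical
  intro X r s E hs hodd h17 hE hX hc0 hc17
  set m := ∏ j, s j with hm
  set M := 136 * m with hMdef
  have hm0 : m ≠ 0 := hs.ne_zero
  have hM0 : 0 < M := by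
    rw [hMdef]
    exact Nat.mul_pos (by norm_num) (Nat.pos_of_ne_zero hm0)
  have fA : (V0 s E).Finite := by
    apply Set.finite_of_ncard_ne_zero
    rw [hc0]; positivity
  have fB : (V17 s E).Finite := by
    apply Set.finite_of_ncard_ne_zero
    rw [hc17]; positivity
  have gA : Gp M (V0 s E) := gp_VG (fun p _ => xcLF s E p) ⟨136, by rw [hMdef, mul_comm]⟩
  have gB : Gp M (V17 s E) := gp_VG (fun p _ => xcL17 s E p) ⟨8, by rw [hMdef]; ring⟩
  set N := Ker M (V0 s E) (V17 s E) with hN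
  have hNcard : M.totient ≤ 2 ^ r * 2 ^ r * N.card := by
    have := kernel_card hM0 gA gB fA fB
    rwa [hc0, hc17] at this
  have hPt : ∀ q ∈ Pt X, q.Prime ∧ ¬ q ∣ 34 * m ∧ q.Coprime M ∧ (1 : ℝ) ≤ q := by
    intro q hq
    unfold Pt at hq
    rw [mem_filter] at hq
    obtain ⟨_, hqp, hq1, _⟩ := hq
    have h1 : M < q := by
      have h2 : (M : ℝ) < q := by
        refine lt_of_lt_of_le ?_ hq1
        rw [hMdef]
        push_cast
        exact hX
      exact_mod_cast h2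
    have h2 : ¬ q ∣ M := fun h => absurd (Nat.le_of_dvd hM0 h) (by omega)
    refine ⟨hqp, ?_, (Nat.Prime.coprime_iff_not_dvd hqp).2 h2, by exact_mod_cast hqp.one_le⟩
    intro h
    apply h2
    rw [hMdef]
    exact h.trans ⟨4, by ring⟩
  set T := N.filter (fun a => ∃ q ∈ Pt X, q % M = a ∧ Ty2 s E q) with hT
  have hTN : T ⊆ N := filter_subset _ _
  have hNM : ∀ a ∈ N, a < M ∧ a.Coprime M := by
    intro a ha
    rw [hN, mem_Ker] at ha
    exact ⟨ha.1, ha.2.1⟩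
  have hmul : ∀ a ∈ N, ∀ b ∈ N, a * b % M ∈ N := by
    intro a ha b hb
    rw [hN, mem_Ker] at ha hb ⊢
    refine ⟨Nat.mod_lt _ hM0, coprime_mod ha.2.1 hb.2.1, ?_, ?_⟩
    · intro w hw
      rw [jac_mod (gA.dv w hw), ha.2.2.1 w hw, hb.2.2.1 w hw, one_mul]
    · intro w hw
      rw [jac_mod (gB.dv w hw), ha.2.2.2 w hw, hb.2.2.2 w hw, one_mul]
  have hno : ∀ a ∈ T, ∀ b ∈ T, a * b % M ∉ T := by
    intro a ha b hb hc
    rw [hT, mem_filter] at ha hb hc
    obtain ⟨-, q1, hq1, h1, t1⟩ := ha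
    obtain ⟨-, q2, hq2, h2, t2⟩ := hb
    obtain ⟨-, q3, hq3, h3, t3⟩ := hc
    obtain ⟨p1, d1, -⟩ := hPt q1 hq1
    obtain ⟨p2, d2, -⟩ := hPt q2 hq2
    obtain ⟨p3, d3, -⟩ := hPt q3 hq3
    refine hTYPE s E hs hodd h17 hE q1 q2 q3 p1 p2 p3 d1 d2 d3 ?_ ⟨t1, t2, t3⟩
    show q3 % M = (q1 * q2) % M
    rw [h3, Nat.mul_mod q1 q2, h1, h2]
  have hcard := half_card' N T hTN hNM hmul hno
  have hRs : ∀ q ∈ Pt X, q % M ∈ N \ T → Rs s E q := by
    intro q hq hqN
    rw [mem_sdiff] at hqN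
    obtain ⟨h1, h2⟩ := hqN
    obtain ⟨hqp, hq34, hqM, _⟩ := hPt q hq
    have hTy : ¬ Ty2 s E q := by
      intro h
      apply h2
      rw [hT, mem_filter]
      exact ⟨h1, q, hq, rfl, h⟩
    rw [hN, mem_Ker] at h1
    obtain ⟨-, -, hk0, hk17⟩ := h1
    obtain ⟨e0, e17⟩ := hEXI s E q hs hodd h17 hE hqp hq34
    have h2M : 2 ∣ M := ⟨68 * m, by rw [hMdef]; ring⟩
    obtain ⟨F0, hF0, n0⟩ := e0 (fun w hw => sgn_of_ker hw.1 hw.2.2.1 hw.2.2.2.1
      (fun p hp h => (hw.2.2.2.2.1 p hp h).trans ⟨136, by rw [hMdef, mul_comm]⟩) hqp hqM h2M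
      (hk0 w hw))
    obtain ⟨F17, hF17, n17⟩ := e17 (fun w hw => sgn_of_ker hw.1 hw.2.2.1 hw.2.2.2.1
      (fun p hp h => (hw.2.2.2.2.1 p hp h).trans ⟨8, by rw [hMdef]; ring⟩) hqp hqM h2M
      (hk17 w hw))
    by_cases hFF : F0 = F17
    · exact ⟨F0, hF0, n0, by rw [hFF]; exact n17⟩
    · exfalso
      apply hTy
      rcases hF0 with h0 | h0 <;> rcases hF17 with h7 | h7
      · exact absurd (h0.trans h7.symm) hFF
      · exact ⟨Or.inl (h0 ▸ n0), Or.inr (h7 ▸ n17)⟩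
      · exact ⟨Or.inr (h7 ▸ n17), Or.inl (h0 ▸ n0)⟩
      · exact absurd (h0.trans h7.symm) hFF
  -- the sums
  set L := ∑ q ∈ Pt X, 1 / ((q : ℝ) - 1) with hL
  have hnn : ∀ q ∈ Pt X, (0 : ℝ) ≤ 1 / ((q : ℝ) - 1) := fun q hq => by
    have := (hPt q hq).2.2.2
    exact div_nonneg zero_le_one (by linarith)
  have hL0 : 0 ≤ L := sum_nonneg hnn
  have hφ : (0 : ℝ) < M.totient := by exact_mod_cast Nat.totient_pos.2 hM0
  have hND : N \ T ⊆ (range M).filter (fun a => a.Coprime M) := by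
    intro a ha
    rw [mem_sdiff] at ha
    rw [mem_filter, mem_range]
    exact hNM a ha.1
  have hcard2 : (M.totient : ℝ) ≤ 2 ^ (2 * r + 1) * ((N \ T).card : ℝ) := by
    have h1 : N.card ≤ 2 * (N \ T).card := by
      rw [card_sdiff_of_subset hTN]
      have := card_le_card hTN
      omega
    have h2 : M.totient ≤ 2 ^ (2 * r + 1) * (N \ T).card := by
      calc M.totient ≤ 2 ^ r * 2 ^ r * N.card := hNcard
        _ ≤ 2 ^ r * 2 ^ r * (2 * (N \ T).card) := Nat.mul_le_mul_left _ h1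
        _ = 2 ^ (2 * r + 1) * (N \ T).card := by ring
    exact_mod_cast h2
  have hstep : ∑ a ∈ N \ T, ∑ q ∈ (Pt X).filter (fun q => q % M = a), 1 / ((q : ℝ) - 1) ≤
      ∑ q ∈ (Pt X).filter (fun q => Rs s E q), 1 / ((q : ℝ) - 1) := by
    have h1 : ∑ a ∈ N \ T, ∑ q ∈ (Pt X).filter (fun q => q % M = a), 1 / ((q : ℝ) - 1) =
        ∑ q ∈ (Pt X).filter (fun q => q % M ∈ N \ T), 1 / ((q : ℝ) - 1) := by
      rw [← sum_fiberwise_of_maps_to (s := (Pt X).filter (fun q => q % M ∈ N \ T))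
        (t := N \ T) (g := fun q => q % M) (fun q hq => (mem_filter.mp hq).2)]
      refine sum_congr rfl fun a ha => ?_
      apply sum_congr _ fun _ _ => rfl
      ext q
      rw [mem_filter, mem_filter, mem_filter]
      constructor
      · rintro ⟨h1, h2⟩
        exact ⟨⟨h1, by rw [h2]; exact ha⟩, h2⟩
      · rintro ⟨⟨h1, _⟩, h2⟩
        exact ⟨h1, h2⟩
    rw [h1]
    apply sum_le_sum_of_subset_of_nonneg
    · intro q hq
      rw [mem_filter] at hq ⊢
      exact ⟨hq.1, hRs q hq.1 hq.2⟩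
    · intro q hq _
      exact hnn q (mem_filter.mp hq).1
  refine le_trans ?_ hstep
  have h5 : ∑ a ∈ N \ T, (L / M.totient -
      |∑ q ∈ (Pt X).filter (fun q => q % M = a), 1 / ((q : ℝ) - 1) - L / M.totient|) ≤
      ∑ a ∈ N \ T, ∑ q ∈ (Pt X).filter (fun q => q % M = a), 1 / ((q : ℝ) - 1) := by
    refine sum_le_sum fun a _ => ?_
    have h2 := neg_abs_le (∑ q ∈ (Pt X).filter (fun q => q % M = a), 1 / ((q : ℝ) - 1) -
      L / M.totient)
    linarith
  refine le_trans ?_ h5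
  rw [sum_sub_distrib, sum_const, nsmul_eq_mul]
  apply sub_le_sub
  · rw [div_le_iff₀ (by positivity), mul_comm, ← mul_assoc, mul_div_assoc', le_div_iff₀ hφ,
      mul_comm L]
    exact mul_le_mul_of_nonneg_right hcard2 hL0
  · unfold Dsc
    exact sum_le_sum_of_subset_of_nonneg hND fun _ _ _ => abs_nonneg _

/-- **RAI** -/
theorem RAI (hT : St_TYPE2) (hE : St_EXI) : St_RAI := RAI' hT hE

end Pool.Agent.Y350.MT
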